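import Pool.Agent.H174.GP.StH
import Pool.Agent.H824.GP174.gcmp

set_option autoImplicit false

/-! From the Gaussian to the Laplace process with general thresholds -/

open MeasureTheory ProbabilityTheory Finset Filter Topology

namespace Pool.Agent.H612.GP174

open Pool.Agent.H174.GP
open Pool.Agent.H824.GP174 (S_meas Ch_meas Wb_meas S_Wb)

theorem Ch_cont (L x : ℕ) : Continuous (fun ω : ℕ → ℝ => Ch ω L x) := by
  unfold Ch Cs
  fun_prop

theorem Ch_congr {n x : ℕ} {z z' : ℕ → ℝ} (h : ∀ j ∈ Finset.Icc 1 n, z j = z' j) :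
    Ch z n x = Ch z' n x := by
  unfold Ch Cs
  refine Finset.sum_congr rfl fun j hj => ?_
  show ((min j x : ℕ) : ℝ) * (z j / (j : ℝ)) = ((min j x : ℕ) : ℝ) * (z' j / (j : ℝ))
  rw [h j hj]

/-- **gcmp2** -/
theorem gp_gcmp2 (h1 : S_Zmp) (h2 : S_couple) (h3 : S_wdet) (h4 : S_cltg) :
    Pool.Agent.H174.GP.S_gcmp2 := by
  intro n A X t hn hA hl hX
  have hnpos : (0 : ℝ) < n := by exact_mod_cast (by omega : 0 < n)
  have hη : 0 < (n : ℝ) ^ (-A) := Real.rpow_pos_of_pos hnpos _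
  obtain ⟨O, hO⟩ : ∃ O : Set (ℕ → ℝ), O = {z | ∀ x ∈ X, -(t x) - 1 < Ch z n x} := ⟨_, rfl⟩
  have hOeq : O = ⋂ x ∈ X, {z : ℕ → ℝ | -(t x) - 1 < Ch z n x} := by
    rw [hO]
    ext z
    simp
  have hOo : IsOpen O := by
    rw [hOeq]
    exact isOpen_biInter_finset fun x _ => isOpen_lt continuous_const (Ch_cont n x)
  have hOm : MeasurableSet O := by
    rw [hOeq]
    exact Finset.measurableSet_biInter _ fun x _ => measurableSet_lt measurable_const (Ch_meas n x)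
  have hdep : DepOn (Finset.Icc 1 n) Oᶜ := by
    intro z z' hzz hz hz'
    apply hz
    rw [hO] at hz' ⊢
    intro x hx
    rw [Ch_congr hzz]
    exact hz' x hx
  obtain ⟨K0, hK0⟩ := h4 n Oᶜ ((n : ℝ) ^ (-A)) hOo.isClosed_compl hdep hη
  obtain ⟨K, hKK, hK1⟩ : ∃ K : ℕ, K0 ≤ K ∧ 1 ≤ K := ⟨max K0 1, le_max_left _ _, le_max_right _ _⟩
  have hclt := hK0 K hKK
  have hWm : MeasurableSet ((fun ω : ℕ → ℝ => Wb K ω) ⁻¹' O) := (Wb_meas K) hOm
  have e1 : PP.real {ω | Wb K ω ∈ Oᶜ} = 1 - PP.real ((fun ω : ℕ → ℝ => Wb K ω) ⁻¹' O) := by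
    have : {ω : ℕ → ℝ | Wb K ω ∈ Oᶜ} = ((fun ω : ℕ → ℝ => Wb K ω) ⁻¹' O)ᶜ := rfl
    rw [this, probReal_compl_eq_one_sub hWm]
  have e2 : GA.real Oᶜ = 1 - GA.real O := probReal_compl_eq_one_sub hOm
  rw [e1, e2] at hclt
  have s0 : GA.real {z | ∀ x ∈ X, -(t x) ≤ Ch z n x} ≤ GA.real O := by
    refine measureReal_mono ?_
    intro z hz
    rw [hO]
    intro x hx
    have := hz x hx
    linarith
  -- the coupling
  obtain ⟨l, hldef⟩ : ∃ l : ℝ, l = 2 * (A + 1) * Real.log n := ⟨_, rfl⟩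
  have hc := h2 K n A hK1 hn hA hl
  rw [← hldef] at hl hc ⊢
  have hK0' : (0 : ℝ) < K := by exact_mod_cast hK1
  have hsK : 0 < Real.sqrt K := Real.sqrt_pos.2 hK0'
  have hZ := h1 K hK1
  have hF : MeasurePreserving (Prod.fst : (ℕ → ℝ) × (ℕ → ℕ) → (ℕ → ℝ)) (PP.prod (GG K)) PP :=
    measurePreserving_fst
  obtain ⟨bad, hbad⟩ : ∃ bad : Set ((ℕ → ℝ) × (ℕ → ℕ)), bad = {p | ∃ i ∈ Finset.Icc 1 n,
    Real.sqrt K * (8 * l ^ (3 / 2 : ℝ) * (i : ℝ) ^ (1 / 4 : ℝ)) <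
      |S p.1 (K * i) - Real.sqrt K * S (fun j => Z K p j) i|} := ⟨_, rfl⟩
  rw [← hbad] at hc
  have key : ∀ p ∉ bad, ∀ x ∈ Finset.Icc 1 n,
      |Real.sqrt 2 * Ch (Wb K p.1) n x - Ch (fun i => Z K p i) n x| ≤
        32 * l ^ (3 / 2 : ℝ) * (x : ℝ) ^ (1 / 4 : ℝ) := by
    intro p hp x hx
    have h5 := h3 n 1 (Wb K p.1) (fun i => Z K p i) (8 * l ^ (3 / 2 : ℝ)) le_rfl (by positivity) ?_ x hx
    · refine h5.trans (le_of_eq ?_)
      ring
    · intro i hi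
      have h5 : ¬ (Real.sqrt K * (8 * l ^ (3 / 2 : ℝ) * (i : ℝ) ^ (1 / 4 : ℝ)) <
          |S p.1 (K * i) - Real.sqrt K * S (fun j => Z K p j) i|) := fun h =>
        hp (by rw [hbad]; exact ⟨i, hi, h⟩)
      rw [not_lt] at h5
      rw [S_Wb K hK1]
      have h6 : S p.1 (K * i) / Real.sqrt K - S (fun i => Z K p i) i =
          (S p.1 (K * i) - Real.sqrt K * S (fun j => Z K p j) i) / Real.sqrt K := by
        field_simp
      rw [h6, abs_div, abs_of_pos hsK, div_le_iff₀ hsK]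
      linarith
  obtain ⟨V, hV⟩ : ∃ V : Set (ℕ → ℝ), V = {ω | ∀ x ∈ X, -(Real.sqrt 2 * (t x + 1) +
      32 * l ^ (3 / 2 : ℝ) * (x : ℝ) ^ (1 / 4 : ℝ)) ≤ Ch ω n x} := ⟨_, rfl⟩
  rw [← hV]
  have hVm : MeasurableSet V := by
    have : V = ⋂ x ∈ X, {ω : ℕ → ℝ | -(Real.sqrt 2 * (t x + 1) +
        32 * l ^ (3 / 2 : ℝ) * (x : ℝ) ^ (1 / 4 : ℝ)) ≤ Ch ω n x} := by
      rw [hV]
      ext ω
      simp
    rw [this]
    exact Finset.measurableSet_biInter _ fun x _ => measurableSet_le measurable_const (Ch_meas n x)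
  have tr : PP.real ((fun ω : ℕ → ℝ => Wb K ω) ⁻¹' O) ≤ PP.real V + 40 * (n : ℝ) ^ (-A) := by
    rw [← hZ.measureReal_preimage hVm.nullMeasurableSet, ← hF.measureReal_preimage hWm.nullMeasurableSet]
    refine le_trans (measureReal_mono (s₂ := ((fun p => (fun i => Z K p i)) ⁻¹' V) ∪ bad) ?_) ?_
    · intro p hp
      by_cases h : p ∈ bad
      · exact Or.inr h
      · left
        have hp' : Wb K p.1 ∈ O := hp
        rw [hO] at hp'
        show (fun i => Z K p i) ∈ V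
        rw [hV]
        intro x hx
        have h5 := key p h x (hX hx)
        have h6 := hp' x hx
        have h7 : Real.sqrt 2 * (-(t x) - 1) ≤ Real.sqrt 2 * Ch (Wb K p.1) n x :=
          mul_le_mul_of_nonneg_left h6.le (Real.sqrt_nonneg 2)
        rw [abs_le] at h5
        linarith [h5.1, h5.2]
    · exact (measureReal_union_le _ _).trans (add_le_add_right hc _)
  linarith

end Pool.Agent.H612.GP174
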